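import Pool.Agent.H16.Fl1

set_option autoImplicit false

namespace Pool.Agent.Results.MP_091941_lc.Criterion

open Pool.Agent.H16.Fl Filter

theorem result (F : Interp) (h1 : F.Fn.Finite) (h2 : F.Pr.Finite) (hF : Universal F)
    (t : ℕ → ℕ) (hne : ∃ f : ℕ → ℕ, Computable f ∧ InClass F t f) :
    (∀ f g : ℕ → ℕ, Computable f → Computable g → (∀ᶠ x in atTop, f x = g x) →
      InClass F t f → InClass F t g) ↔ Tendsto t atTop atTop := by
  refine ⟨fun h => ?_, fun ht f g _ hg e hf => pos hF hg ht e hf⟩
  by_contra ht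
  obtain ⟨f, hf, hc⟩ := hne
  obtain ⟨x, z, hz⟩ := neg_fin h1 h2 ht f
  refine hz (h f _ hf ?_ ?_ hc)
  · have a : Computable fun y : ℕ => decide (y = x) :=
      (Primrec.eq.comp Primrec.id (Primrec.const x)).decide.to_comp
    refine (Computable.cond a (Computable.const z) hf).of_eq fun y => ?_
    by_cases hy : y = x
    · subst hy; simp
    · simp [hy]
  · filter_upwards [eventually_gt_atTop x] with y hy
    rw [Function.update_of_ne hy.ne']

end Pool.Agent.Results.MP_091941_lc.Criterion
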