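import Pool.Agent.H16.Fl1

set_option autoImplicit false

namespace Pool.Agent.Results.MP_091941_lc.No

open Pool.Agent.H16.Fl Filter

theorem result :
    ∃ F : Interp, F.Fn.Finite ∧ F.Pr.Finite ∧ Universal F ∧ ∃ f g t : ℕ → ℕ,
      Computable f ∧ Computable g ∧ Computable t ∧ (∀ᶠ x in atTop, f x = g x) ∧
      InClass F t f ∧ ¬ InClass F t g := by
  refine ⟨U, (Set.finite_singleton _).insert _, Set.finite_singleton _, U_univ, fun x => x,
    fun x => if x = 0 then 1 else x, fun _ => 2, Computable.id, ?_, Computable.const _, ?_,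
    (neg U).1, fun h => by simpa using (neg U).2.2 _ h⟩
  · exact (Primrec.ite (Primrec.eq.comp Primrec.id (Primrec.const 0)) (Primrec.const 1)
      Primrec.id).to_comp
  · filter_upwards [eventually_ge_atTop 1] with x hx
    rw [if_neg (by omega)]

end Pool.Agent.Results.MP_091941_lc.No
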